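import Pool.Agent.TH272.Shr.HeavyDefs
import Pool.Agent.TH457.Ary.Defs

set_option autoImplicit false

/-! # Construction of formulas -/

namespace Pool.Agent.X282.Shr

open Finset
open Pool.Agent.TH457.Ary (Test)
open Pool.Agent.TH272.Shr

variable {ι : Type} {D : ι → Type} {w q k : ℕ}

/-- A formula over tests as a formula of a circuit. -/
def ofAry : Pool.Agent.TH457.Ary.Fml ι D w q → Fm ι D w q k
  | .leaf τ => .leaf τ
  | .gate g a b => .gate g (ofAry a) (ofAry b)

theorem ofAry_eval (F : Pool.Agent.TH457.Ary.Fml ι D w q) (x : ∀ i, D i) (v : Fin k → Bool) :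
    (ofAry F).eval x v = F.eval x := by
  induction F with
  | leaf τ => rfl
  | gate g a b iha ihb => simp only [ofAry, Fm.eval, Pool.Agent.TH457.Ary.Fml.eval, iha, ihb]

theorem ofAry_leaves (F : Pool.Agent.TH457.Ary.Fml ι D w q) :
    (ofAry F : Fm ι D w q k).leaves = F.size := by
  induction F with
  | leaf τ => rfl
  | gate g a b iha ihb => simp only [ofAry, Fm.leaves, Pool.Agent.TH457.Ary.Fml.size, iha, ihb]

theorem ofAry_refs (F : Pool.Agent.TH457.Ary.Fml ι D w q) :
    (ofAry F : Fm ι D w q k).refs = 0 := by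
  induction F with
  | leaf τ => rfl
  | gate g a b iha ihb => simp only [ofAry, Fm.refs, iha, ihb]

/-- A formula as a circuit without shared gates. -/
theorem exists_circuit (F : Pool.Agent.TH457.Ary.Fml ι D w q) : ∃ C : Circuit ι D w q,
    (∀ x, C.eval x = F.eval x) ∧ C.shared = 0 ∧ C.refs = 0 ∧ C.leaves = F.size := by
  refine ⟨⟨0, .nil, ofAry F⟩, fun x => ofAry_eval F x _, rfl, ?_, ?_⟩
  · show 0 + (ofAry F : Fm ι D w q 0).refs = 0
    rw [ofAry_refs]
  · show 0 + (ofAry F : Fm ι D w q 0).leaves = F.size
    rw [ofAry_leaves, zero_add]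

/-- The parity of the values of formulas. -/
theorem exists_xor (N : ℕ) (F : Fin (N + 1) → Pool.Agent.TH457.Ary.Fml ι D w q) :
    ∃ G : Pool.Agent.TH457.Ary.Fml ι D w q, G.size = ∑ j, (F j).size ∧
      ∀ x, G.eval x = decide ((univ.filter fun j => (F j).eval x = true).card % 2 = 1) := by
  induction N with
  | zero =>
    refine ⟨F 0, by simp, fun x => ?_⟩
    have e : (univ.filter fun j : Fin (0 + 1) => (F j).eval x = true).card =
        if (F 0).eval x = true then 1 else 0 := by
      rw [card_filter]
      exact Fin.sum_univ_one _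
    rw [e]
    cases (F 0).eval x <;> simp
  | succ N ih =>
    obtain ⟨G, h1, h2⟩ := ih (fun j => F j.castSucc)
    refine ⟨.gate xor G (F (Fin.last _)), ?_, fun x => ?_⟩
    · rw [Fin.sum_univ_castSucc]
      simp only [Pool.Agent.TH457.Ary.Fml.size, h1]
    · simp only [Pool.Agent.TH457.Ary.Fml.eval]
      rw [h2 x]
      obtain ⟨A, hA⟩ : ∃ A, A = (univ.filter fun j : Fin (N + 1) => (F j.castSucc).eval x = true).card :=
        ⟨_, rfl⟩
      have e : (univ.filter fun j : Fin (N + 1 + 1) => (F j).eval x = true).card =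
          A + if (F (Fin.last _)).eval x = true then 1 else 0 := by
        rw [hA, card_filter, card_filter, Fin.sum_univ_castSucc]
      rw [e, ← hA]
      cases hl : (F (Fin.last (N + 1))).eval x with
      | false => simp
      | true =>
        simp only [if_true]
        rw [Bool.xor_true]
        by_cases hA2 : A % 2 = 1
        · rw [decide_eq_true hA2, decide_eq_false (by omega)]
          rfl
        · rw [decide_eq_false hA2, decide_eq_true (by omega)]
          rfl

/-- The disjunction of the values of formulas. -/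
theorem exists_or (N : ℕ) (F : Fin (N + 1) → Pool.Agent.TH457.Ary.Fml ι D w q) :
    ∃ G : Pool.Agent.TH457.Ary.Fml ι D w q, G.size = ∑ j, (F j).size ∧
      ∀ x, G.eval x = decide (∃ j, (F j).eval x = true) := by
  induction N with
  | zero =>
    refine ⟨F 0, by simp, fun x => ?_⟩
    cases h : (F 0).eval x with
    | true => exact (decide_eq_true ⟨0, h⟩).symm
    | false =>
      refine (decide_eq_false ?_).symm
      rintro ⟨j, hj⟩
      have hj0 : j = 0 := by omega
      rw [hj0, h] at hj
      exact absurd hj (by simp)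
  | succ N ih =>
    obtain ⟨G, h1, h2⟩ := ih (fun j => F j.castSucc)
    refine ⟨.gate or G (F (Fin.last _)), ?_, fun x => ?_⟩
    · rw [Fin.sum_univ_castSucc]
      simp only [Pool.Agent.TH457.Ary.Fml.size, h1]
    · simp only [Pool.Agent.TH457.Ary.Fml.eval]
      rw [h2 x, Bool.eq_iff_iff, Bool.or_eq_true, decide_eq_true_iff, decide_eq_true_iff]
      constructor
      · rintro (⟨j, hj⟩ | h)
        · exact ⟨_, hj⟩
        · exact ⟨_, h⟩
      · rintro ⟨j, hj⟩
        refine Fin.lastCases (motive := fun j => (F j).eval x = true → _) ?_ ?_ j hj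
        · exact fun h => Or.inr h
        · exact fun j h => Or.inl ⟨j, h⟩

end Pool.Agent.X282.Shr
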